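import Pool.Agent.Helper48_LPY.Stmts
import Pool.Agent.Helper48_LPY.Basic

/-!
# LPY: modules DEG and LIFT
-/

set_option autoImplicit false

namespace Pool.Agent.LPY.H85

open Pool.Agent.LAX

theorem deg_aux (V : Type) [Finite V] (E : Set (V × V)) (k q : ℕ) (K : ℕ → Set (V × V)) (v : V)
    (hk : (out E v).ncard = k) (hsub : ∀ c < q, K c ⊆ E)
    (hf : ∀ c < q, ∀ y y', (v, y) ∈ K c → (v, y') ∈ K c → y = y')
    (hd : ∀ c < q, ∀ d < q, c ≠ d → Disjoint (K c) (K d)) :
    (out {p | p ∈ E ∧ ∀ c < q, p ∉ K c} v).ncard + q =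
      k + {c | c < q ∧ v ∉ dom (K c)}.ncard := by
  classical
  set R : Set (V × V) := {p | p ∈ E ∧ ∀ c < q, p ∉ K c} with hR
  set I : Set ℕ := {c | c < q ∧ v ∈ dom (K c)} with hI
  set J : Set ℕ := {c | c < q ∧ v ∉ dom (K c)} with hJ
  have hIf : I.Finite := (Set.finite_lt_nat q).subset fun c hc => hc.1
  have hJf : J.Finite := (Set.finite_lt_nat q).subset fun c hc => hc.1
  have hIJ : I.ncard + J.ncard = q := by
    rw [← Set.ncard_union_eq _ hIf hJf]
    · have : I ∪ J = {c | c < q} := by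
        ext c
        simp only [hI, hJ, Set.mem_union, Set.mem_setOf_eq]
        tauto
      rw [this]
      have h2 : {c : ℕ | c < q} = ((Finset.range q : Finset ℕ) : Set ℕ) := by
        ext c
        simp
      rw [h2, Set.ncard_coe_finset, Finset.card_range]
    · rw [Set.disjoint_left]
      intro c h1 h2
      exact h2.2 h1.2
  let f : ℕ → V := fun c => if h : v ∈ dom (K c) then h.choose else v
  have hfs : ∀ c, v ∈ dom (K c) → (v, f c) ∈ K c := by
    intro c hc
    simp only [f, dif_pos hc]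
    exact hc.choose_spec
  have hinj : Set.InjOn f I := by
    intro c hc d hdd h
    by_contra hne
    have h1 := hfs c hc.2
    have h2 := hfs d hdd.2
    rw [← h] at h2
    exact Set.disjoint_left.mp (hd c hc.1 d hdd.1 hne) h1 h2
  have himg : f '' I = out E v \ out R v := by
    ext y
    constructor
    · rintro ⟨c, hc, rfl⟩
      refine ⟨hsub c hc.1 (hfs c hc.2), fun h => h.2 c hc.1 (hfs c hc.2)⟩
    · rintro ⟨h1, h2⟩
      have h3 : ¬ ((v, y) ∈ E ∧ ∀ c < q, (v, y) ∉ K c) := h2
      push Not at h3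
      obtain ⟨c, hc, h4⟩ := h3 h1
      have hvd : v ∈ dom (K c) := ⟨y, h4⟩
      exact ⟨c, ⟨hc, hvd⟩, hf c hc _ _ (hfs c hvd) h4⟩
  have hsubR : out R v ⊆ out E v := fun y hy => hy.1
  have h1 : (out E v \ out R v).ncard = I.ncard := by
    rw [← himg, Set.ncard_image_of_injOn hinj]
  have h2 := Set.ncard_sdiff_add_ncard_of_subset hsubR (Set.toFinite _)
  omega

/-- DEG -/
theorem deg : DegStmt := by
  intro V _ E k q K hE hK hd v
  refine ⟨deg_aux V E k q K v (hE v).1 (fun c hc => (hK c hc).1)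
    (fun c hc y y' h h' => (hK c hc).2.1 v y y' h h') hd, ?_⟩
  have h := deg_aux V (rv E) k q (fun c => rv (K c)) v (hE v).2
    (fun c hc p hp => (hK c hc).1 hp)
    (fun c hc y y' h h' => (hK c hc).2.2 y y' v h h') ?_
  · exact h
  · intro c hc d hdd hne
    rw [Set.disjoint_left]
    intro p h1 h2
    exact Set.disjoint_left.mp (hd c hc d hdd hne) h1 h2

/-- LIFT -/
theorem lift : LiftStmt := by
  intro V Γ α _ _ _ _ _ c A p hA
  let e : (Γ × V → α) ≃ (V → α) × ({j // j ≠ c} → V → α) :=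
    (Equiv.curry Γ V α).trans (Equiv.funSplitAt c (V → α))
  have hS : {ω : Γ × V → α | (fun v => ω (c, v)) ∈ A} =
      e.symm '' (A ×ˢ (Set.univ : Set ({j // j ≠ c} → V → α))) := by
    rw [Equiv.image_symm_eq_preimage]
    ext ω
    simp only [Set.mem_setOf_eq, Set.mem_preimage, Set.mem_prod, Set.mem_univ, and_true]
    rfl
  rw [hS, Set.ncard_image_of_injective _ e.symm.injective, Set.ncard_prod, Set.ncard_univ,
    Fintype.card_congr e, Fintype.card_prod, Nat.card_eq_fintype_card]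
  push_cast
  rw [← mul_assoc]
  exact mul_le_mul_of_nonneg_right hA (Nat.cast_nonneg _)

end Pool.Agent.LPY.H85
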